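import Pool.Agent.H.MP_43e44c_ag.NT.FldB

/-!
The CM fields which have a nondegenerate CM type.
-/

set_option autoImplicit false

open NumberField Module Pool.MP43e44c

namespace Pool.Agent.Results.MP_43e44c_ag.NondegenerateTypes

/-- The rank of a CM type `Φ` of `K` (Kubota; the dimension of the Mumford-Tate group of `A_Φ`): the dimension of
the space of functions on the embeddings of `K` spanned by the characteristic functions of the conjugates of
`Φ` under the Galois group of the Galois closure of `K` in `ℂ`. -/
noncomputable def rank {K : Type*} [Field K] [NumberField K] (Φ : Finset (K →+* ℂ)) : ℕ :=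
  finrank ℚ (NT.conjSpan (GG K) Φ)

/-- The CM type is nondegenerate: its rank is `n + 1`, where `[K : ℚ] = 2 n`. -/
def Nondegenerate {K : Type*} [Field K] [NumberField K] (Φ : Finset (K →+* ℂ)) : Prop :=
  2 * rank Φ = finrank ℚ K + 2

/-- The CM type is primitive (the abelian variety `A_Φ` is simple): it is not induced from a proper subfield. -/
def Primitive {K : Type*} [Field K] [NumberField K] (Φ : Finset (K →+* ℂ)) : Prop :=
  ∀ F : IntermediateField ℚ K, (∀ φ ∈ Φ, ∀ ψ : K →+* ℂ, (∀ x ∈ F, φ x = ψ x) → ψ ∈ Φ) → F = ⊤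

/-- The exceptional fields: the biquadratic fields and the octic Galois fields with dihedral Galois group. -/
def Exceptional (K : Type*) [Field K] [NumberField K] : Prop :=
  IsGalois ℚ K ∧ (IsKleinFour (K ≃ₐ[ℚ] K) ∨ Nonempty ((K ≃ₐ[ℚ] K) ≃* DihedralGroup 4))

/-- Every CM field `K` which is neither a biquadratic quartic field nor a Galois octic field with dihedral group
has a nondegenerate CM type `Φ`, and it is primitive and for all `k` every rational Hodge class on `A_Φ^k` is a rational
combination of products of divisor classes.  In the two exceptional cases `K` has no primitive and no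
nondegenerate CM type. -/
theorem result.{u} {K : Type u} [Field K] [NumberField K] [IsCMField K] :
    (¬ Exceptional K → ∃ Φ : Finset (K →+* ℂ),
      IsCMType Φ ∧ Nondegenerate Φ ∧ Primitive Φ ∧ HodgeRingGeneratedByDivisors Φ) ∧
    (Exceptional K → ∀ Φ : Finset (K →+* ℂ), IsCMType Φ → ¬ Primitive Φ ∧ ¬ Nondegenerate Φ) := by
  constructor
  · intro hK
    obtain ⟨Φ, hΦ, hr⟩ := NT.exists_type hK
    exact ⟨Φ, hΦ, hr, NT.prim_of_nd hΦ hr, NT.hodge_of_nd hΦ hr⟩
  · intro hK Φ hΦ
    have h1 : ¬ NT.Primitive Φ := NT.not_prim_of_exc hK hΦ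
    exact ⟨h1, fun h => h1 (NT.prim_of_nd hΦ h)⟩

end Pool.Agent.Results.MP_43e44c_ag.NondegenerateTypes
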