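import Pool.Agent.H.MP_43e44c_ag.SG.Main2
import Pool.Agent.H.MP_43e44c_ag.PE.Nz

/-!
Hodge classes on the powers of abelian varieties whose endomorphism algebra is a CM field, for almost all
signatures.
-/

set_option autoImplicit false

open NumberField Module Pool.MP43e44c

namespace Pool.Agent.Results.MP_43e44c_ag.UnitarySignatures

/-- The place of `τ` is regular for the multiplicities `m`: either `m τ` and `m (conj τ)` are coprime, or they are
positive, different, not of the form `C(n, j)`, `C(n, j - 1)` with `1 < j < n` (in this or the other order: replace `j`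
by `n + 1 - j`), and `N = m τ + m (conj τ)` does not divide `gcd (m τ) (m (conj τ)) * gcd (m t) (m (conj t))` for any
embedding `t` with `m t` and `m (conj t)` positive. -/
def Regular {K : Type*} [Field K] (m : (K →+* ℂ) → ℕ) (τ : K →+* ℂ) : Prop :=
  Nat.Coprime (m τ) (m (ComplexEmbedding.conjugate τ)) ∨
  (0 < m τ ∧ 0 < m (ComplexEmbedding.conjugate τ) ∧ m τ ≠ m (ComplexEmbedding.conjugate τ) ∧
    (∀ n j : ℕ, 1 < j → j < n →
      ¬ (m τ = n.choose j ∧ m (ComplexEmbedding.conjugate τ) = n.choose (j - 1))) ∧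
    ∀ t : K →+* ℂ, 0 < m t → 0 < m (ComplexEmbedding.conjugate t) →
      ¬ (m τ + m (ComplexEmbedding.conjugate τ)) ∣
        Nat.gcd (m τ) (m (ComplexEmbedding.conjugate τ)) * Nat.gcd (m t) (m (ComplexEmbedding.conjugate t)))

/-- Let `A = E/Λ` be a polarised complex torus with `End(A) ⊗ ℚ = K` (via `ι`), `K` any CM field, and let `m τ` be
the multiplicity of the embedding `τ` of `K` in the tangent space `E`; `m τ + m (conj τ) = 2 dim A / [K : ℚ]`.
`HodgeByDivisors` abbreviates: for all `k` and `p` every rational Hodge class of degree `2p` on `A^k` is a rational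
combination of products of divisor classes.  The multiplicities are nondegenerate if the functions
`τ ↦ m (σ τ) - m (conj (σ τ))`, `σ` an automorphism of `ℂ`, span all odd functions.  A place is definite if one of
its two multiplicities is zero.

(0) If `A` is not zero, `HodgeByDivisors` implies that the multiplicities are nondegenerate.

Suppose that some place is regular (in particular: `m τ` and `m (conj τ)` coprime for some `τ`).
(1) If any two embeddings `τ, t` at different places have translates `σ τ, σ t` with different multiplicities and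
not both at definite places, then `HodgeByDivisors` holds if and only if the multiplicities are nondegenerate.
(2) The same equivalence holds if all `m τ` are positive (no definite place).
(3) `HodgeByDivisors` holds if for some `τ₀` and some integer `d` the difference `m τ - m (conj τ)` is divisible by `d`
for all `τ ≠ τ₀, conj τ₀` but not for `τ = τ₀`.

(4) Signature `(r, s)` at one place, all other places definite: `HodgeByDivisors` holds if exactly one place, that of
`τ₀`, is not definite, `r = m τ₀` and `s = m (conj τ₀)` are different, `r + s` does not divide `gcd(r, s)²` and `r, s` are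
not `C(n, j), C(n, j - 1)` with `1 < j < n`.  (Coprime `r ≠ s` satisfy these conditions.) -/
theorem result.{u, v} {K : Type u} [Field K] [NumberField K] [IsCMField K]
    {E : Type v} [AddCommGroup E] [Module ℂ E] [Module ℝ E] [IsScalarTower ℝ ℂ E]
    {Λ : AddSubgroup E} {ι : K →+* Module.End ℂ E} (h : HasEndK Λ ι) :
    ((∃ x : E, x ≠ 0) → (∀ k p : ℕ, GeneratedByDivisors (powLattice Λ k) p) → NondegMult (mult ι)) ∧
    ((∃ τ, Regular (mult ι) τ) →
      ((∀ τ t : K →+* ℂ, t ≠ τ → t ≠ ComplexEmbedding.conjugate τ → ∃ σ : ℂ ≃+* ℂ,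
          mult ι ((σ : ℂ →+* ℂ).comp τ) ≠ mult ι ((σ : ℂ →+* ℂ).comp t) ∧
          ¬ (mult ι ((σ : ℂ →+* ℂ).comp τ) *
                mult ι (ComplexEmbedding.conjugate ((σ : ℂ →+* ℂ).comp τ)) = 0 ∧
            mult ι ((σ : ℂ →+* ℂ).comp t) *
                mult ι (ComplexEmbedding.conjugate ((σ : ℂ →+* ℂ).comp t)) = 0)) →
        ((∀ k p : ℕ, GeneratedByDivisors (powLattice Λ k) p) ↔ NondegMult (mult ι))) ∧
      ((∀ τ, 0 < mult ι τ) →
        ((∀ k p : ℕ, GeneratedByDivisors (powLattice Λ k) p) ↔ NondegMult (mult ι))) ∧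
      (∀ (τ₀ : K →+* ℂ) (d : ℤ),
        (∀ τ, τ ≠ τ₀ → τ ≠ ComplexEmbedding.conjugate τ₀ →
          d ∣ (mult ι τ : ℤ) - mult ι (ComplexEmbedding.conjugate τ)) →
        ¬ d ∣ (mult ι τ₀ : ℤ) - mult ι (ComplexEmbedding.conjugate τ₀) →
        ∀ k p : ℕ, GeneratedByDivisors (powLattice Λ k) p)) ∧
    (∀ τ₀ : K →+* ℂ, 0 < mult ι τ₀ → 0 < mult ι (ComplexEmbedding.conjugate τ₀) →
      mult ι τ₀ ≠ mult ι (ComplexEmbedding.conjugate τ₀) →
      (∀ τ, τ ≠ τ₀ → τ ≠ ComplexEmbedding.conjugate τ₀ →
        mult ι τ = 0 ∨ mult ι (ComplexEmbedding.conjugate τ) = 0) →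
      (∀ n j : ℕ, 1 < j → j < n →
        ¬ (mult ι τ₀ = n.choose j ∧ mult ι (ComplexEmbedding.conjugate τ₀) = n.choose (j - 1))) →
      ¬ (mult ι τ₀ + mult ι (ComplexEmbedding.conjugate τ₀)) ∣
        Nat.gcd (mult ι τ₀) (mult ι (ComplexEmbedding.conjugate τ₀)) ^ 2 →
      ∀ k p : ℕ, GeneratedByDivisors (powLattice Λ k) p) := by
  have hconv : (∃ τ, mult ι τ ≠ 0) → (∀ k p : ℕ, GeneratedByDivisors (powLattice Λ k) p) →
      NondegMult (mult ι) := by
    intro h0 hg
    by_contra hnd
    obtain ⟨k, p, hkp⟩ := PE.conv h h0 hnd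
    exact hkp (hg k p)
  refine ⟨fun hE hg => hconv (PE.exists_mult_ne_zero h hE) hg, ?_, ?_⟩
  · rintro ⟨τ₁, hτ₁⟩
    have h0 : ∃ τ, mult ι τ ≠ 0 := by
      rcases hτ₁ with hτ₁ | hτ₁
      · by_contra h0
        push Not at h0
        rw [h0, h0] at hτ₁
        exact absurd hτ₁ (by decide)
      · exact ⟨τ₁, hτ₁.1.ne'⟩
    exact ⟨fun hs => ⟨hconv h0, fun hn => SG.main h ⟨τ₁, hτ₁⟩ hn hs⟩,
      fun hp => ⟨hconv h0, fun hn => SG.main_indef h ⟨τ₁, hτ₁⟩ hn hp⟩,
      fun τ₀ d h2 h3 => SG.main_dvd h ⟨τ₁, hτ₁⟩ τ₀ d h2 h3⟩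
  · intro τ₀ hp hp' hne h3 hbin hdiv
    refine SG.main_one h τ₀ hp hp' ⟨τ₀, Or.inr ⟨hp, hp', hne, hbin, ?_⟩⟩ hne h3
    intro t ht ht' hd
    by_cases e1 : t = τ₀
    · rw [e1] at hd
      exact hdiv (by rw [pow_two]; exact hd)
    · by_cases e2 : t = ComplexEmbedding.conjugate τ₀
      · have e3 : PE.cj (ComplexEmbedding.conjugate τ₀) = τ₀ := PE.cj_cj τ₀
        rw [e2, e3, Nat.gcd_comm (mult ι (ComplexEmbedding.conjugate τ₀))] at hd
        exact hdiv (by rw [pow_two]; exact hd)
      · rcases h3 t e1 e2 with h4 | h4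
        · omega
        · have h5 : 0 < mult ι (ComplexEmbedding.conjugate t) := ht'
          omega

end Pool.Agent.Results.MP_43e44c_ag.UnitarySignatures
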